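import Mathlib

/-!
The question of MP_41f43f_an in the words of the problem file: Feichtinger's algebra is the set of
the square integrable g for which the short-time Fourier transform of g with window g itself is
integrable on the plane, closed boxes are counted, and the frame condition has 0 < A <= B.
The answer is negative already for n = 1.
-/

set_option autoImplicit false
open MeasureTheory

namespace Pool.Agent.Results.MP_41f43f_an.OddFeichtingerFrame

/-- the time-frequency shift: shift lam g (t) = exp(2 pi i omega t) g(t - x) for lam = (x, omega) -/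
noncomputable def shift (lam : ℝ × ℝ) (g : ℝ → ℂ) (t : ℝ) : ℂ :=
  Complex.exp (2 * (Real.pi : ℂ) * Complex.I * ((lam.2 : ℝ) : ℂ) * (t : ℂ)) * g (t - lam.1)

/-- the short-time Fourier transform of f with window g -/
noncomputable def stft (g f : ℝ → ℂ) (lam : ℝ × ℝ) : ℂ :=
  ∫ t : ℝ, f t * (starRingEnd ℂ) (shift lam g t)

/-- Feichtinger's algebra -/
def Feichtinger (g : ℝ → ℂ) : Prop :=
  MemLp g 2 volume ∧ Integrable (stft g g) (volume : Measure (ℝ × ℝ))

/-- the Gabor system of g over Gam is a frame -/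
def GaborFrame (g : ℝ → ℂ) (Gam : Set (ℝ × ℝ)) : Prop :=
  ∃ A B : ℝ, 0 < A ∧ A ≤ B ∧ ∀ f : ℝ → ℂ, MemLp f 2 volume →
    Summable (fun lam : Gam => ‖stft g f lam‖ ^ 2) ∧
    A * (∫ t : ℝ, ‖f t‖ ^ 2) ≤ ∑' lam : Gam, ‖stft g f lam‖ ^ 2 ∧
    ∑' lam : Gam, ‖stft g f lam‖ ^ 2 ≤ B * (∫ t : ℝ, ‖f t‖ ^ 2)

/-- the closed square z + [0,R]^2 -/
def box (z : ℝ × ℝ) (R : ℝ) : Set (ℝ × ℝ) :=
  Set.Icc z.1 (z.1 + R) ×ˢ Set.Icc z.2 (z.2 + R)

/-- relatively separated sets: at most C points in every closed unit square -/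
def RelSeparated (Gam : Set (ℝ × ℝ)) : Prop :=
  ∃ C : ℕ, ∀ z : ℝ × ℝ, (Gam ∩ box z 1).encard ≤ C

/-- the lower Beurling density -/
noncomputable def lowerDensity (Gam : Set (ℝ × ℝ)) : ℝ :=
  Filter.liminf (fun R : ℝ => ⨅ z : ℝ × ℝ, ((Gam ∩ box z R).ncard : ℝ) / R ^ 2) Filter.atTop

/-- the window -/
noncomputable def g (t : ℝ) : ℂ :=
  Set.indicator (Set.Ioc (-(1/2) : ℝ) (1/2)) (fun s => ((Real.sin (2 * Real.pi * s) : ℝ) : ℂ)) t

lemma g_odd (t : ℝ) : g (-t) = - g t := by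
  unfold g
  by_cases h1 : t ∈ Set.Ioc (-(1/2) : ℝ) (1/2)
  · by_cases h2 : t = 1/2
    · subst h2
      have : (2 * Real.pi * (1/2)) = Real.pi := by ring
      rw [Set.indicator_of_mem h1, this, Set.indicator_of_notMem (by norm_num)]
      simp
    · have h3 : -t ∈ Set.Ioc (-(1/2) : ℝ) (1/2) := by
        constructor
        · have := h1.2
          have : t < 1/2 := lt_of_le_of_ne this h2
          linarith
        · linarith [h1.1]
      rw [Set.indicator_of_mem h1, Set.indicator_of_mem h3]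
      have : 2 * Real.pi * (-t) = - (2 * Real.pi * t) := by ring
      rw [this, Real.sin_neg]; push_cast; ring
  · rw [Set.indicator_of_notMem h1]
    by_cases h3 : -t ∈ Set.Ioc (-(1/2) : ℝ) (1/2)
    · have h4 : t = -(1/2) := by
        by_contra hne
        apply h1
        constructor
        · have : -(1/2) ≤ t := by linarith [h3.2]
          exact lt_of_le_of_ne this (Ne.symm hne)
        · linarith [h3.1]
      rw [Set.indicator_of_mem h3, h4]
      have : 2 * Real.pi * (- -(1/2)) = Real.pi := by ring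
      rw [this]; simp
    · rw [Set.indicator_of_notMem h3]; simp

lemma g_measurable : Measurable g := by
  unfold g
  apply Measurable.indicator _ measurableSet_Ioc
  fun_prop

lemma g_norm_le (t : ℝ) : ‖g t‖ ≤ 1 := by
  unfold g
  refine (norm_indicator_le_norm_self _ _).trans ?_
  rw [Complex.norm_real]
  exact Real.abs_sin_le_one _

lemma g_memLp (p : ENNReal) : MemLp g p volume := by
  have h : g = Set.indicator (Set.Ioc (-(1/2) : ℝ) (1/2)) g := by
    ext t
    by_cases h1 : t ∈ Set.Ioc (-(1/2) : ℝ) (1/2)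
    · rw [Set.indicator_of_mem h1]
    · rw [Set.indicator_of_notMem h1]; unfold g; rw [Set.indicator_of_notMem h1]
  rw [h]
  rw [memLp_indicator_iff_restrict measurableSet_Ioc]
  refine MemLp.of_bound g_measurable.aestronglyMeasurable 1 ?_
  exact Filter.Eventually.of_forall g_norm_le

lemma g_integrable : Integrable g volume := by
  rw [← memLp_one_iff_integrable]; exact g_memLp 1



/-- index map -/
noncomputable def F (p : (Bool × ℤ) × ℤ) : ℝ × ℝ :=
  ((p.1.2 : ℝ) + (if p.1.1 then 1/4 else 0), (p.2 : ℝ))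

lemma F_inj : Function.Injective F := by
  rintro ⟨⟨b, m⟩, n⟩ ⟨⟨b', m'⟩, n'⟩ h
  unfold F at h
  simp only [Prod.mk.injEq, Int.cast_inj] at h
  obtain ⟨h1, h2⟩ := h
  subst h2
  cases b <;> cases b' <;> simp only [if_true, if_false, Bool.false_eq_true, add_zero] at h1
  · have : m = m' := by exact_mod_cast h1
    rw [this]
  · exfalso
    have h3 : (((m - m') * 4 : ℤ) : ℝ) = ((1 : ℤ) : ℝ) := by push_cast; linarith
    have h4 : (m - m') * 4 = 1 := by exact_mod_cast h3
    omega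
  · exfalso
    have h3 : (((m' - m) * 4 : ℤ) : ℝ) = ((1 : ℤ) : ℝ) := by push_cast; linarith
    have h4 : (m' - m) * 4 = 1 := by exact_mod_cast h3
    omega
  · have : m = m' := by
      have : (m : ℝ) = m' := by linarith
      exact_mod_cast this
    rw [this]

/-- coefficient as Fourier coefficient -/
lemma coef_eq (f : ℝ → ℂ) (a : ℝ) (n : ℤ) (hab : a - 1/2 < a + 1/2) :
    (∫ t : ℝ, f t * (starRingEnd ℂ)
          (Complex.exp (2 * (Real.pi : ℂ) * Complex.I * ((n : ℝ) : ℂ) * (t : ℂ)) * g (t - a)))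
    = fourierCoeffOn hab (fun t => f t * ((Real.sin (2 * Real.pi * (t - a)) : ℝ) : ℂ)) n := by
  rw [fourierCoeffOn_eq_integral]
  have hlen : (a + 1/2 - (a - 1/2)) = 1 := by ring
  rw [hlen, intervalIntegral.integral_of_le hab.le, ← integral_indicator measurableSet_Ioc]
  simp only [one_div, inv_one, one_smul]
  congr 1
  ext t
  by_cases ht : t ∈ Set.Ioc (a - 2⁻¹) (a + 2⁻¹)
  · rw [Set.indicator_of_mem ht]
    have ht' : t - a ∈ Set.Ioc (-(1/2) : ℝ) (1/2) := by
      constructor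
      · have := ht.1; linarith
      · have := ht.2; linarith
    unfold g
    rw [Set.indicator_of_mem ht', map_mul, Complex.conj_ofReal, ← Complex.exp_conj]
    rw [fourier_coe_apply]
    have : (starRingEnd ℂ) (2 * (Real.pi : ℂ) * Complex.I * ((n : ℝ) : ℂ) * (t : ℂ))
        = 2 * (Real.pi : ℂ) * Complex.I * ((-n : ℤ) : ℂ) * (t : ℂ) / ((a + 1/2 - (a - 1/2) : ℝ) : ℂ) := by
      rw [hlen]
      simp only [map_mul, Complex.conj_I, Complex.conj_ofReal, map_ofNat]
      push_cast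
      ring
    rw [this]
    simp only [smul_eq_mul, one_div]
    ring_nf
  · rw [Set.indicator_of_notMem ht]
    have ht' : t - a ∉ Set.Ioc (-(1/2) : ℝ) (1/2) := by
      intro h
      apply ht
      constructor
      · have := h.1; linarith
      · have := h.2; linarith
    unfold g
    rw [Set.indicator_of_notMem ht']
    simp

lemma hasSum_n (f : ℝ → ℂ) (hf : MemLp f 2 volume) (a : ℝ) :
    HasSum (fun n : ℤ => ‖∫ t : ℝ, f t * (starRingEnd ℂ)
          (Complex.exp (2 * (Real.pi : ℂ) * Complex.I * ((n : ℝ) : ℂ) * (t : ℂ)) * g (t - a))‖ ^ 2)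
    (∫ t in (a - 1/2)..(a + 1/2), ‖f t‖ ^ 2 * (Real.sin (2 * Real.pi * (t - a))) ^ 2) := by
  have hab : a - 1/2 < a + 1/2 := by linarith
  simp_rw [coef_eq f a _ hab]
  have hL2 : MemLp (fun t => f t * ((Real.sin (2 * Real.pi * (t - a)) : ℝ) : ℂ)) 2
      (volume.restrict (Set.Ioc (a - 1/2) (a + 1/2))) := by
    have h1 : MemLp f 2 (volume.restrict (Set.Ioc (a - 1/2) (a + 1/2))) := hf.restrict _
    refine MemLp.of_le_mul (c := 1) h1 ?_ ?_
    · refine h1.1.mul ?_
      apply Continuous.aestronglyMeasurable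
      fun_prop
    · refine Filter.Eventually.of_forall fun t => ?_
      rw [norm_mul, Complex.norm_real, one_mul]
      calc ‖f t‖ * ‖Real.sin (2 * Real.pi * (t - a))‖ ≤ ‖f t‖ * 1 := by
            apply mul_le_mul_of_nonneg_left _ (norm_nonneg _)
            exact Real.abs_sin_le_one _
        _ = ‖f t‖ := mul_one _
  have h := hasSum_sq_fourierCoeffOn hab hL2
  have hlen : (a + 1/2 - (a - 1/2)) = 1 := by ring
  rw [hlen] at h
  simp only [inv_one, one_smul] at h
  convert h using 1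
  congr 1
  ext t
  rw [norm_mul, mul_pow, Complex.norm_real, Real.norm_eq_abs, sq_abs]

lemma integrable_sq (f : ℝ → ℂ) (hf : MemLp f 2 volume) : Integrable (fun t => ‖f t‖ ^ 2) volume := by
  have := hf.integrable_norm_pow (by norm_num : (2 : ℕ) ≠ 0)
  simpa using this

lemma integrable_sq_mul (f : ℝ → ℂ) (hf : MemLp f 2 volume) (φ : ℝ → ℝ) (hφ : Continuous φ)
    (hb : ∀ t, |φ t| ≤ 1) :
    Integrable (fun t => ‖f t‖ ^ 2 * (φ t) ^ 2) volume := by
  refine Integrable.mono (integrable_sq f hf) ?_ ?_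
  · exact (integrable_sq f hf).1.mul (by fun_prop)
  · refine Filter.Eventually.of_forall fun t => ?_
    rw [norm_mul]
    calc ‖‖f t‖ ^ 2‖ * ‖(φ t) ^ 2‖ ≤ ‖‖f t‖ ^ 2‖ * 1 := by
          apply mul_le_mul_of_nonneg_left _ (norm_nonneg _)
          rw [Real.norm_eq_abs, abs_pow]
          exact pow_le_one₀ (abs_nonneg _) (hb t)
      _ = _ := mul_one _

lemma hasSum_m (f : ℝ → ℂ) (hf : MemLp f 2 volume) (c : ℝ) :
    HasSum (fun m : ℤ => ∫ t in ((m : ℝ) + c - 1/2)..((m : ℝ) + c + 1/2),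
        ‖f t‖ ^ 2 * (Real.sin (2 * Real.pi * (t - ((m : ℝ) + c)))) ^ 2)
      (∫ t : ℝ, ‖f t‖ ^ 2 * (Real.sin (2 * Real.pi * (t - c))) ^ 2) := by
  have h := (integrable_sq_mul f hf (fun t => Real.sin (2 * Real.pi * (t - c))) (by fun_prop)
    (fun t => Real.abs_sin_le_one _)).hasSum_intervalIntegral (c - 1/2)
  have key : (fun m : ℤ => ∫ t in ((m : ℝ) + c - 1/2)..((m : ℝ) + c + 1/2),
        ‖f t‖ ^ 2 * (Real.sin (2 * Real.pi * (t - ((m : ℝ) + c)))) ^ 2) =
      (fun n : ℤ => ∫ x in (c - 1/2 + (n : ℝ))..(c - 1/2 + (n : ℝ) + 1),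
        ‖f x‖ ^ 2 * (Real.sin (2 * Real.pi * (x - c))) ^ 2) := by
    funext m
    have e1 : (m : ℝ) + c - 1/2 = c - 1/2 + m := by ring
    have e2 : (m : ℝ) + c + 1/2 = c - 1/2 + m + 1 := by ring
    rw [e1, e2]
    congr 1
    ext t
    have : 2 * Real.pi * (t - (m + c)) = 2 * Real.pi * (t - c) - m * (2 * Real.pi) := by ring
    rw [this, Real.sin_sub_int_mul_two_pi]
  rw [key]
  exact h

lemma frame_hasSum (f : ℝ → ℂ) (hf : MemLp f 2 volume) :
    HasSum (fun p : (Bool × ℤ) × ℤ => ‖∫ t : ℝ, f t * (starRingEnd ℂ)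
          (Complex.exp (2 * (Real.pi : ℂ) * Complex.I * (((F p).2 : ℝ) : ℂ) * (t : ℂ))
            * g (t - (F p).1))‖ ^ 2)
      (∫ t : ℝ, ‖f t‖ ^ 2) := by
  set S : (Bool × ℤ) × ℤ → ℝ := fun p => ‖∫ t : ℝ, f t * (starRingEnd ℂ)
          (Complex.exp (2 * (Real.pi : ℂ) * Complex.I * (((F p).2 : ℝ) : ℂ) * (t : ℂ))
            * g (t - (F p).1))‖ ^ 2 with hS
  have hn : ∀ q : Bool × ℤ, HasSum (fun n : ℤ => S (q, n))
      (∫ t in ((q.2 : ℝ) + (if q.1 then 1/4 else 0) - 1/2)..((q.2 : ℝ) + (if q.1 then 1/4 else 0) + 1/2),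
        ‖f t‖ ^ 2 * (Real.sin (2 * Real.pi * (t - ((q.2 : ℝ) + (if q.1 then 1/4 else 0))))) ^ 2) := by
    intro q
    exact hasSum_n f hf ((q.2 : ℝ) + (if q.1 then 1/4 else 0))
  have hm : ∀ b : Bool, HasSum (fun m : ℤ => ∫ t in ((m : ℝ) + (if b then 1/4 else 0) - 1/2)..((m : ℝ) + (if b then 1/4 else 0) + 1/2),
        ‖f t‖ ^ 2 * (Real.sin (2 * Real.pi * (t - ((m : ℝ) + (if b then 1/4 else 0))))) ^ 2)
      (∫ t : ℝ, ‖f t‖ ^ 2 * (Real.sin (2 * Real.pi * (t - (if b then 1/4 else 0)))) ^ 2) := by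
    intro b
    exact hasSum_m f hf (if b then 1/4 else 0)
  have hnn : 0 ≤ S := fun p => by positivity
  -- summability over (b, m)
  have hT : ∀ q : Bool × ℤ, ∑' n : ℤ, S (q, n) = 
      (∫ t in ((q.2 : ℝ) + (if q.1 then 1/4 else 0) - 1/2)..((q.2 : ℝ) + (if q.1 then 1/4 else 0) + 1/2),
        ‖f t‖ ^ 2 * (Real.sin (2 * Real.pi * (t - ((q.2 : ℝ) + (if q.1 then 1/4 else 0))))) ^ 2) :=
    fun q => (hn q).tsum_eq
  have hTnn : 0 ≤ (fun q : Bool × ℤ => ∑' n : ℤ, S (q, n)) := fun q => tsum_nonneg fun n => hnn _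
  have hsumq : Summable (fun q : Bool × ℤ => ∑' n : ℤ, S (q, n)) := by
    rw [summable_prod_of_nonneg hTnn]
    refine ⟨fun b => ?_, ?_⟩
    · simp_rw [hT]
      exact (hm b).summable
    · exact Summable.of_finite
  have hsum : Summable S := by
    rw [summable_prod_of_nonneg hnn]
    exact ⟨fun q => (hn q).summable, hsumq⟩
  have htot : ∑' p, S p = ∫ t : ℝ, ‖f t‖ ^ 2 := by
    rw [hsum.tsum_prod' (fun q => (hn q).summable)]
    rw [hsumq.tsum_prod' (fun b => by simp_rw [hT]; exact (hm b).summable)]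
    simp_rw [hT]
    rw [tsum_fintype, Fintype.sum_bool, (hm true).tsum_eq, (hm false).tsum_eq, ← integral_add]
    · congr 1
      ext t
      have : 2 * Real.pi * (t - 1/4) = 2 * Real.pi * t - Real.pi / 2 := by ring
      simp only [if_true, Bool.false_eq_true, if_false, sub_zero, this, Real.sin_sub_pi_div_two]
      have := Real.sin_sq_add_cos_sq (2 * Real.pi * t)
      rw [neg_sq, ← mul_add, add_comm, this, mul_one]
    · exact integrable_sq_mul f hf _ (by fun_prop) (fun t => Real.abs_sin_le_one _)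
    · exact integrable_sq_mul f hf _ (by fun_prop) (fun t => Real.abs_sin_le_one _)
  rw [← htot]
  exact hsum.hasSum

/-- count of integers -/
noncomputable def cnt (z R : ℝ) : Finset ℤ := Finset.Icc ⌈z⌉ ⌊z + R⌋

lemma mem_cnt (z R : ℝ) (m : ℤ) : m ∈ cnt z R ↔ z ≤ m ∧ (m : ℝ) ≤ z + R := by
  unfold cnt
  rw [Finset.mem_Icc, Int.ceil_le, Int.le_floor]

lemma cnt_card_le (z R : ℝ) (hR : 0 ≤ R) : ((cnt z R).card : ℝ) ≤ R + 1 := by
  unfold cnt
  rw [Int.card_Icc]
  have h1 := Int.floor_le (z + R)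
  have h2 := Int.le_ceil z
  rcases le_or_gt 0 (⌊z + R⌋ + 1 - ⌈z⌉) with h0 | h0
  · have h3 : (((⌊z + R⌋ + 1 - ⌈z⌉).toNat : ℕ) : ℝ) = ((⌊z + R⌋ + 1 - ⌈z⌉ : ℤ) : ℝ) := by
      rw [← Int.cast_natCast, Int.toNat_of_nonneg h0]
    rw [h3]; push_cast; linarith
  · rw [Int.toNat_of_nonpos h0.le]
    push_cast; linarith

lemma cnt_card_ge (z R : ℝ) : R - 1 ≤ ((cnt z R).card : ℝ) := by
  unfold cnt
  rw [Int.card_Icc]
  have h1 := Int.lt_floor_add_one (z + R)
  have h2 := Int.ceil_lt_add_one z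
  have h3 : ((⌊z + R⌋ + 1 - ⌈z⌉ : ℤ) : ℝ) ≤ (((⌊z + R⌋ + 1 - ⌈z⌉).toNat : ℕ) : ℝ) := by
    have := Int.self_le_toNat (⌊z + R⌋ + 1 - ⌈z⌉)
    rw [← Int.cast_natCast]
    exact Int.cast_le.mpr this
  push_cast at h3; linarith

/-- finset of indices in a box -/
noncomputable def T (z : ℝ × ℝ) (R : ℝ) : Finset ((Bool × ℤ) × ℤ) :=
  ((({false} : Finset Bool) ×ˢ cnt z.1 R) ∪ (({true} : Finset Bool) ×ˢ cnt (z.1 - 1/4) R)) ×ˢ cnt z.2 R

lemma T_card (z : ℝ × ℝ) (R : ℝ) :
    (T z R).card = ((cnt z.1 R).card + (cnt (z.1 - 1/4) R).card) * (cnt z.2 R).card := by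
  unfold T
  rw [Finset.card_product, Finset.card_union_of_disjoint, Finset.card_product, Finset.card_product]
  · simp
  · rw [Finset.disjoint_left]
    rintro ⟨b, m⟩ h1 h2
    simp only [Finset.mem_product, Finset.mem_singleton] at h1 h2
    have := h1.1.symm.trans h2.1
    simp at this

lemma inter_eq (z : ℝ × ℝ) (R : ℝ) :
    (Set.range F ∩ box z R) = F '' (T z R : Set _) := by
  ext p
  constructor
  · rintro ⟨⟨⟨⟨b, m⟩, n⟩, rfl⟩, hp⟩
    refine ⟨((b, m), n), ?_, rfl⟩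
    simp only [F, box, Set.mem_prod, Set.mem_Icc] at hp
    obtain ⟨⟨h1, h2⟩, h3, h4⟩ := hp
    unfold T
    simp only [Finset.coe_product, Finset.coe_union, Set.mem_prod, Set.mem_union, Finset.mem_coe,
      Finset.mem_singleton, mem_cnt]
    refine ⟨?_, h3, h4⟩
    cases b
    · left
      simp only [Bool.false_eq_true, if_false, add_zero] at h1 h2
      exact ⟨rfl, h1, h2⟩
    · right
      simp only [if_true] at h1 h2
      exact ⟨rfl, by linarith, by linarith⟩
  · rintro ⟨⟨⟨b, m⟩, n⟩, h, rfl⟩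
    unfold T at h
    simp only [Finset.coe_product, Finset.coe_union, Set.mem_prod, Set.mem_union, Finset.mem_coe,
      Finset.mem_singleton, mem_cnt] at h
    obtain ⟨h1, h3, h4⟩ := h
    refine ⟨⟨_, rfl⟩, ?_⟩
    simp only [F, box, Set.mem_prod, Set.mem_Icc]
    refine ⟨?_, h3, h4⟩
    rcases h1 with ⟨rfl, h5, h6⟩ | ⟨rfl, h5, h6⟩
    · simp only [Bool.false_eq_true, if_false, add_zero]
      exact ⟨h5, h6⟩
    · simp only [if_true]
      exact ⟨by linarith, by linarith⟩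

lemma encard_eq (z : ℝ × ℝ) (R : ℝ) :
    (Set.range F ∩ box z R).encard
      = ((((cnt z.1 R).card + (cnt (z.1 - 1/4) R).card) * (cnt z.2 R).card : ℕ) : ℕ∞) := by
  rw [inter_eq, F_inj.encard_image, Set.encard_coe_eq_coe_finsetCard, T_card]

lemma ncard_eq (z : ℝ × ℝ) (R : ℝ) :
    (Set.range F ∩ box z R).ncard
      = ((cnt z.1 R).card + (cnt (z.1 - 1/4) R).card) * (cnt z.2 R).card := by
  rw [inter_eq, Set.ncard_image_of_injective _ F_inj, Set.ncard_coe_finset, T_card]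

lemma separated : RelSeparated (Set.range F) := by
  refine ⟨8, fun z => ?_⟩
  rw [encard_eq]
  have h : ∀ z : ℝ, (cnt z 1).card ≤ 2 := by
    intro z
    have := cnt_card_le z 1 (by norm_num)
    have h2 : ((cnt z 1).card : ℝ) ≤ ((2 : ℕ) : ℝ) := by push_cast; linarith
    exact_mod_cast h2
  have h8 : ((cnt z.1 1).card + (cnt (z.1 - 1/4) 1).card) * (cnt z.2 1).card ≤ 8 := by
    calc _ ≤ (2 + 2) * 2 := Nat.mul_le_mul (Nat.add_le_add (h _) (h _)) (h _)
      _ = 8 := by norm_num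
  exact_mod_cast h8

lemma density : lowerDensity (Set.range F) = 2 := by
  unfold lowerDensity
  apply Filter.Tendsto.liminf_eq
  have hlow : Filter.Tendsto (fun R : ℝ => 2 * (1 - R⁻¹) ^ 2) Filter.atTop (nhds 2) := by
    have h1 : Filter.Tendsto (fun R : ℝ => 2 * (1 - R⁻¹) ^ 2) Filter.atTop (nhds (2 * (1 - 0) ^ 2)) :=
      ((tendsto_const_nhds.sub tendsto_inv_atTop_zero).pow 2).const_mul 2
    simpa using h1
  have hup : Filter.Tendsto (fun R : ℝ => 2 * (1 + R⁻¹) ^ 2) Filter.atTop (nhds 2) := by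
    have h1 : Filter.Tendsto (fun R : ℝ => 2 * (1 + R⁻¹) ^ 2) Filter.atTop (nhds (2 * (1 + 0) ^ 2)) :=
      ((tendsto_const_nhds.add tendsto_inv_atTop_zero).pow 2).const_mul 2
    simpa using h1
  refine tendsto_of_tendsto_of_tendsto_of_le_of_le' hlow hup ?_ ?_
  · filter_upwards [Filter.eventually_ge_atTop (1 : ℝ)] with R hR
    apply le_ciInf
    intro z
    rw [ncard_eq, le_div_iff₀ (by positivity)]
    push_cast
    have h1 := cnt_card_ge z.1 R
    have h2 := cnt_card_ge (z.1 - 1/4) R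
    have h3 := cnt_card_ge z.2 R
    have e : 2 * (1 - R⁻¹) ^ 2 * R ^ 2 = ((R - 1) + (R - 1)) * (R - 1) := by
      field_simp
      ring
    rw [e]
    apply mul_le_mul (by linarith) h3 (by linarith) (by linarith)
  · filter_upwards [Filter.eventually_ge_atTop (1 : ℝ)] with R hR
    refine (ciInf_le ⟨0, ?_⟩ (0, 0)).trans ?_
    · rintro _ ⟨z, rfl⟩
      positivity
    rw [ncard_eq, div_le_iff₀ (by positivity)]
    push_cast
    have h1 := cnt_card_le (0, 0).1 R (by linarith)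
    have h2 := cnt_card_le ((0, 0).1 - 1/4) R (by linarith)
    have h3 := cnt_card_le (0, 0).2 R (by linarith)
    have e : 2 * (1 + R⁻¹) ^ 2 * R ^ 2 = ((R + 1) + (R + 1)) * (R + 1) := by
      field_simp
      ring
    rw [e]
    apply mul_le_mul (by linarith) h3 (by positivity) (by linarith)

/-! The short-time Fourier transform of g with window g is integrable. -/

noncomputable def h0 (x t : ℝ) : ℝ :=
  Real.sin (2 * Real.pi * t) * Real.sin (2 * Real.pi * (t - x))
noncomputable def h1 (x t : ℝ) : ℝ :=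
  2 * Real.pi * Real.cos (2 * Real.pi * t) * Real.sin (2 * Real.pi * (t - x))
    + 2 * Real.pi * Real.sin (2 * Real.pi * t) * Real.cos (2 * Real.pi * (t - x))
noncomputable def h2 (x t : ℝ) : ℝ :=
  -(8 * Real.pi ^ 2) * (Real.sin (2 * Real.pi * t) * Real.sin (2 * Real.pi * (t - x)))
    + 8 * Real.pi ^ 2 * (Real.cos (2 * Real.pi * t) * Real.cos (2 * Real.pi * (t - x)))

lemma hasDerivAt_h0 (x t : ℝ) : HasDerivAt (h0 x) (h1 x t) t := by
  have a1 : HasDerivAt (fun t : ℝ => 2 * Real.pi * t) (2 * Real.pi) t := by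
    simpa using (hasDerivAt_id t).const_mul (2 * Real.pi)
  have a2 : HasDerivAt (fun t : ℝ => 2 * Real.pi * (t - x)) (2 * Real.pi) t := by
    simpa using ((hasDerivAt_id t).sub_const x).const_mul (2 * Real.pi)
  have := a1.sin.mul a2.sin
  refine this.congr_deriv ?_
  unfold h1
  ring

lemma hasDerivAt_h1 (x t : ℝ) : HasDerivAt (h1 x) (h2 x t) t := by
  have a1 : HasDerivAt (fun t : ℝ => 2 * Real.pi * t) (2 * Real.pi) t := by
    simpa using (hasDerivAt_id t).const_mul (2 * Real.pi)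
  have a2 : HasDerivAt (fun t : ℝ => 2 * Real.pi * (t - x)) (2 * Real.pi) t := by
    simpa using ((hasDerivAt_id t).sub_const x).const_mul (2 * Real.pi)
  have := ((a1.cos.const_mul (2 * Real.pi)).mul a2.sin).add
    ((a1.sin.const_mul (2 * Real.pi)).mul a2.cos)
  refine this.congr_deriv ?_
  unfold h2
  ring

lemma h2_cont (x : ℝ) : Continuous (h2 x) := by
  unfold h2
  fun_prop

lemma h0_cont (x : ℝ) : Continuous (h0 x) := by
  unfold h0
  fun_prop

lemma abs_mul_le_one (a b : ℝ) (ha : |a| ≤ 1) (hb : |b| ≤ 1) : |a * b| ≤ 1 := by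
  rw [abs_mul]
  exact mul_le_one₀ ha (abs_nonneg _) hb

lemma h0_le (x t : ℝ) : |h0 x t| ≤ 1 := by
  unfold h0
  exact abs_mul_le_one _ _ (Real.abs_sin_le_one _) (Real.abs_sin_le_one _)

lemma h1_le (x t : ℝ) : |h1 x t| ≤ 4 * Real.pi := by
  have p := Real.pi_pos
  have e1 := abs_mul_le_one _ _ (Real.abs_cos_le_one (2 * Real.pi * t))
    (Real.abs_sin_le_one (2 * Real.pi * (t - x)))
  have e2 := abs_mul_le_one _ _ (Real.abs_sin_le_one (2 * Real.pi * t))
    (Real.abs_cos_le_one (2 * Real.pi * (t - x)))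
  rw [abs_le] at e1 e2 ⊢
  unfold h1
  constructor
  · nlinarith [e1.1, e2.1]
  · nlinarith [e1.2, e2.2]

lemma h2_le (x t : ℝ) : |h2 x t| ≤ 16 * Real.pi ^ 2 := by
  have p : 0 < Real.pi ^ 2 := by positivity
  have e1 := abs_mul_le_one _ _ (Real.abs_sin_le_one (2 * Real.pi * t))
    (Real.abs_sin_le_one (2 * Real.pi * (t - x)))
  have e2 := abs_mul_le_one _ _ (Real.abs_cos_le_one (2 * Real.pi * t))
    (Real.abs_cos_le_one (2 * Real.pi * (t - x)))
  rw [abs_le] at e1 e2 ⊢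
  unfold h2
  constructor
  · nlinarith [e1.1, e2.1, e1.2, e2.2]
  · nlinarith [e1.1, e2.1, e1.2, e2.2]

noncomputable def lo (x : ℝ) : ℝ := max (-(1/2)) (x - 1/2)
noncomputable def hi (x : ℝ) : ℝ := min (1/2) (x + 1/2)

lemma stft_eq (x w : ℝ) : stft g g (x, w) = ∫ t in Set.Ioc (lo x) (hi x),
    ((h0 x t : ℝ) : ℂ) * Complex.exp ((-2 * (Real.pi : ℂ) * Complex.I * (w : ℂ)) * (t : ℂ)) := by
  rw [← integral_indicator measurableSet_Ioc]
  unfold stft shift
  congr 1
  ext t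
  by_cases ht : t ∈ Set.Ioc (lo x) (hi x)
  · rw [Set.indicator_of_mem ht]
    have h1 := ht.1
    have h2 := ht.2
    unfold lo at h1
    unfold hi at h2
    rw [max_lt_iff] at h1
    rw [le_min_iff] at h2
    have m1 : t ∈ Set.Ioc (-(1/2) : ℝ) (1/2) := ⟨h1.1, h2.1⟩
    have m2 : t - x ∈ Set.Ioc (-(1/2) : ℝ) (1/2) := ⟨by linarith [h1.2], by linarith [h2.2]⟩
    unfold g h0
    rw [Set.indicator_of_mem m1, Set.indicator_of_mem m2, map_mul, Complex.conj_ofReal,
      ← Complex.exp_conj]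
    have e : (starRingEnd ℂ) (2 * (Real.pi : ℂ) * Complex.I * ((w : ℝ) : ℂ) * (t : ℂ))
        = (-2 * (Real.pi : ℂ) * Complex.I * (w : ℂ)) * (t : ℂ) := by
      simp only [map_mul, Complex.conj_I, Complex.conj_ofReal, map_ofNat]
      ring
    rw [e]
    push_cast
    ring
  · rw [Set.indicator_of_notMem ht]
    by_cases m1 : t ∈ Set.Ioc (-(1/2) : ℝ) (1/2)
    · have m2 : t - x ∉ Set.Ioc (-(1/2) : ℝ) (1/2) := by
        intro m2
        apply ht
        unfold lo hi
        exact ⟨max_lt m1.1 (by linarith [m2.1]), le_min m1.2 (by linarith [m2.2])⟩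
      unfold g
      rw [Set.indicator_of_notMem m2]
      simp
    · unfold g
      rw [Set.indicator_of_notMem m1]
      simp

lemma h0_lo (x : ℝ) : h0 x (lo x) = 0 := by
  unfold h0 lo
  rcases le_total (-(1/2)) (x - 1/2) with h | h
  · rw [max_eq_right h, show 2 * Real.pi * (x - 1/2 - x) = -Real.pi by ring]
    simp
  · rw [max_eq_left h, show 2 * Real.pi * (-(1/2)) = -Real.pi by ring]
    simp

lemma h0_hi (x : ℝ) : h0 x (hi x) = 0 := by
  unfold h0 hi
  rcases le_total (1/2) (x + 1/2) with h | h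
  · rw [min_eq_left h, show 2 * Real.pi * (1/2) = Real.pi by ring]
    simp
  · rw [min_eq_right h, show 2 * Real.pi * (x + 1/2 - x) = Real.pi by ring]
    simp

lemma parts (x w : ℝ) :
    (4 * (Real.pi : ℂ) ^ 2 * (w : ℂ) ^ 2) * (∫ t in (lo x)..(hi x),
      ((h0 x t : ℝ) : ℂ) * Complex.exp ((-2 * (Real.pi : ℂ) * Complex.I * (w : ℂ)) * (t : ℂ)))
    = ((h1 x (hi x) : ℝ) : ℂ) * Complex.exp ((-2 * (Real.pi : ℂ) * Complex.I * (w : ℂ)) * ((hi x : ℝ) : ℂ))
      - ((h1 x (lo x) : ℝ) : ℂ) * Complex.exp ((-2 * (Real.pi : ℂ) * Complex.I * (w : ℂ)) * ((lo x : ℝ) : ℂ))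
      - ∫ t in (lo x)..(hi x),
        ((h2 x t : ℝ) : ℂ) * Complex.exp ((-2 * (Real.pi : ℂ) * Complex.I * (w : ℂ)) * (t : ℂ)) := by
  set c : ℂ := -2 * (Real.pi : ℂ) * Complex.I * (w : ℂ) with hc
  have hE : ∀ t : ℝ, HasDerivAt (fun t : ℝ => Complex.exp (c * (t : ℂ))) (c * Complex.exp (c * (t : ℂ))) t := by
    intro t
    have h1 : HasDerivAt (fun t : ℝ => c * (t : ℂ)) c t := by
      refine ((Complex.ofRealCLM.hasDerivAt (x := t)).const_mul c).congr_deriv ?_
      simp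
    refine h1.cexp.congr_deriv ?_
    ring
  have hA : ∀ t : ℝ, HasDerivAt (fun t : ℝ => ((h0 x t : ℝ) : ℂ)) ((h1 x t : ℝ) : ℂ) t :=
    fun t => (hasDerivAt_h0 x t).ofReal_comp
  have hB : ∀ t : ℝ, HasDerivAt (fun t : ℝ => ((h1 x t : ℝ) : ℂ)) ((h2 x t : ℝ) : ℂ) t :=
    fun t => (hasDerivAt_h1 x t).ofReal_comp
  have hPhi : ∀ t : ℝ, HasDerivAt (fun t : ℝ => ((h1 x t : ℝ) : ℂ) * Complex.exp (c * (t : ℂ))
      - c * (((h0 x t : ℝ) : ℂ) * Complex.exp (c * (t : ℂ))))
      (((h2 x t : ℝ) : ℂ) * Complex.exp (c * (t : ℂ)) - c ^ 2 * (((h0 x t : ℝ) : ℂ) * Complex.exp (c * (t : ℂ)))) t := by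
    intro t
    refine (((hB t).mul (hE t)).sub (((hA t).mul (hE t)).const_mul c)).congr_deriv ?_
    ring
  have i1 : IntervalIntegrable (fun t : ℝ => ((h2 x t : ℝ) : ℂ) * Complex.exp (c * (t : ℂ))) volume (lo x) (hi x) := by
    apply Continuous.intervalIntegrable
    have := h2_cont x
    fun_prop
  have i2 : IntervalIntegrable (fun t : ℝ => c ^ 2 * (((h0 x t : ℝ) : ℂ) * Complex.exp (c * (t : ℂ)))) volume (lo x) (hi x) := by
    apply Continuous.intervalIntegrable
    have := h0_cont x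
    fun_prop
  have h := intervalIntegral.integral_eq_sub_of_hasDerivAt (fun t _ => hPhi t) (i1.sub i2)
  rw [intervalIntegral.integral_sub i1 i2, intervalIntegral.integral_const_mul] at h
  have hc2 : c ^ 2 = - (4 * (Real.pi : ℂ) ^ 2 * (w : ℂ) ^ 2) := by
    rw [hc]
    have := Complex.I_sq
    linear_combination (4 * (Real.pi : ℂ) ^ 2 * (w : ℂ) ^ 2) * this
  rw [hc2] at h
  rw [h0_lo, h0_hi] at h
  simp only [Complex.ofReal_zero, zero_mul, mul_zero, sub_zero] at h
  linear_combination h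

lemma exp_norm (w t : ℝ) : ‖Complex.exp ((-2 * (Real.pi : ℂ) * Complex.I * (w : ℂ)) * (t : ℂ))‖ = 1 := by
  have : (-2 * (Real.pi : ℂ) * Complex.I * (w : ℂ)) * (t : ℂ) = ((-2 * Real.pi * w * t : ℝ) : ℂ) * Complex.I := by
    push_cast; ring
  rw [this, Complex.norm_exp_ofReal_mul_I]

lemma int_le (x w M : ℝ) (h : ℝ → ℝ) (hh : ∀ t, |h t| ≤ M) :
    ‖∫ t in (lo x)..(hi x),
        ((h t : ℝ) : ℂ) * Complex.exp ((-2 * (Real.pi : ℂ) * Complex.I * (w : ℂ)) * (t : ℂ))‖
      ≤ M * |hi x - lo x| := by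
  apply intervalIntegral.norm_integral_le_of_norm_le_const
  intro t _
  rw [norm_mul, exp_norm, mul_one, Complex.norm_real]
  exact hh t

lemma stft_bound (p : ℝ × ℝ) :
    ‖stft g g p‖ ≤ (Set.Icc (-1 : ℝ) 1).indicator (fun _ => (8 : ℝ)) p.1 * (1 + p.2 ^ 2)⁻¹ := by
  obtain ⟨x, w⟩ := p
  by_cases hx : x ∈ Set.Icc (-1 : ℝ) 1
  · have hle : lo x ≤ hi x := by
      unfold lo hi
      obtain ⟨a, b⟩ := hx
      exact max_le (le_min (by norm_num) (by linarith)) (le_min (by linarith) (by linarith))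
    have hlen : |hi x - lo x| ≤ 1 := by
      rw [abs_of_nonneg (by linarith)]
      have e1 : hi x ≤ 1/2 := min_le_left _ _
      have e2 : -(1/2) ≤ lo x := le_max_left _ _
      linarith
    have hV : stft g g (x, w) = ∫ t in (lo x)..(hi x),
        ((h0 x t : ℝ) : ℂ) * Complex.exp ((-2 * (Real.pi : ℂ) * Complex.I * (w : ℂ)) * (t : ℂ)) := by
      rw [stft_eq, intervalIntegral.integral_of_le hle]
    rw [Set.indicator_of_mem hx, ← div_eq_mul_inv, le_div_iff₀ (by positivity)]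
    have hp := congrArg norm (parts x w)
    rw [norm_mul, ← hV] at hp
    have e1 : ‖(4 * (Real.pi : ℂ) ^ 2 * (w : ℂ) ^ 2)‖ = 4 * Real.pi ^ 2 * w ^ 2 := by
      have : (4 * (Real.pi : ℂ) ^ 2 * (w : ℂ) ^ 2) = ((4 * Real.pi ^ 2 * w ^ 2 : ℝ) : ℂ) := by push_cast; ring
      rw [this, Complex.norm_real, Real.norm_eq_abs, abs_of_nonneg (by positivity)]
    rw [e1] at hp
    have e2 : ‖stft g g (x, w)‖ ≤ 1 := by
      rw [hV]
      refine (int_le x w 1 (h0 x) (h0_le x)).trans ?_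
      linarith
    have pi3 : (3 : ℝ) < Real.pi := Real.pi_gt_three
    have e3 : 4 * Real.pi ^ 2 * w ^ 2 * ‖stft g g (x, w)‖ ≤ 8 * Real.pi + 16 * Real.pi ^ 2 := by
      rw [hp]
      have i3 := int_le x w (16 * Real.pi ^ 2) (h2 x) (h2_le x)
      have i4 : 16 * Real.pi ^ 2 * |hi x - lo x| ≤ 16 * Real.pi ^ 2 * 1 :=
        mul_le_mul_of_nonneg_left hlen (by positivity)
      refine (norm_sub_le _ _).trans ?_
      refine (add_le_add (norm_sub_le _ _) i3).trans ?_
      rw [norm_mul, norm_mul, exp_norm, exp_norm, mul_one, mul_one, Complex.norm_real, Complex.norm_real]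
      have a1 := h1_le x (hi x)
      have a2 := h1_le x (lo x)
      rw [Real.norm_eq_abs, Real.norm_eq_abs]
      linarith
    have e4 : w ^ 2 * ‖stft g g (x, w)‖ ≤ 7 := by
      have h1 : 4 * Real.pi ^ 2 * (w ^ 2 * ‖stft g g (x, w)‖) ≤ 4 * Real.pi ^ 2 * 7 := by
        nlinarith
      exact le_of_mul_le_mul_left h1 (by positivity)
    calc ‖stft g g (x, w)‖ * (1 + (x, w).2 ^ 2)
        = ‖stft g g (x, w)‖ + w ^ 2 * ‖stft g g (x, w)‖ := by ring
      _ ≤ 8 := by linarith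
  · rw [Set.indicator_of_notMem hx, zero_mul, stft_eq]
    have hempty : Set.Ioc (lo x) (hi x) = ∅ := by
      rw [Set.Ioc_eq_empty_iff, not_lt]
      unfold lo hi
      rw [Set.mem_Icc, not_and_or, not_le, not_le] at hx
      rcases hx with h | h
      · exact (min_le_right _ _).trans ((by linarith : x + 1/2 ≤ -(1/2)).trans (le_max_left _ _))
      · exact (min_le_left _ _).trans ((by linarith : (1:ℝ)/2 ≤ x - 1/2).trans (le_max_right _ _))
    rw [hempty]
    simp

lemma stft_meas : AEStronglyMeasurable (stft g g) (volume : Measure (ℝ × ℝ)) := by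
  have h : StronglyMeasurable (fun q : (ℝ × ℝ) × ℝ => g q.2 *
      (starRingEnd ℂ) (Complex.exp (2 * (Real.pi : ℂ) * Complex.I * ((q.1.2 : ℝ) : ℂ) * (q.2 : ℂ))
        * g (q.2 - q.1.1))) := by
    apply Measurable.stronglyMeasurable
    apply Measurable.mul
    · exact g_measurable.comp measurable_snd
    · apply Complex.continuous_conj.measurable.comp
      apply Measurable.mul
      · fun_prop
      · exact g_measurable.comp (measurable_snd.sub (measurable_fst.comp measurable_fst))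
  exact (h.integral_prod_right' (ν := volume)).aestronglyMeasurable

lemma g_feichtinger : Feichtinger g := by
  refine ⟨g_memLp 2, ?_⟩
  have h : Integrable (fun p : ℝ × ℝ =>
      (Set.Icc (-1 : ℝ) 1).indicator (fun _ => (8 : ℝ)) p.1 * (1 + p.2 ^ 2)⁻¹)
      (volume : Measure (ℝ × ℝ)) := by
    apply Integrable.mul_prod _ integrable_inv_one_add_sq
    rw [integrable_indicator_iff measurableSet_Icc]
    exact integrableOn_const (by simp)
  refine h.mono' stft_meas ?_
  exact Filter.Eventually.of_forall stft_bound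

/-- Negative answer to the question, for n = 1: there is an odd window in Feichtinger's algebra
and a relatively separated set of lower Beurling density 2 = (1+1)/1 whose Gabor system is
a frame. -/
theorem result :
    ∃ n : ℕ, 1 ≤ n ∧ ∃ (g : ℝ → ℂ) (Gam : Set (ℝ × ℝ)), Feichtinger g ∧ (∀ t : ℝ, g (-t) = -g t) ∧
      RelSeparated Gam ∧ lowerDensity Gam = ((n : ℝ) + 1) / n ∧ GaborFrame g Gam := by
  refine ⟨1, le_rfl, g, Set.range F, g_feichtinger, g_odd, separated, ?_,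
    ⟨1, 1, one_pos, le_rfl, fun f hf => ?_⟩⟩
  · rw [density]; norm_num
  · have h := frame_hasSum f hf
    have h' : HasSum (fun lam : Set.range F => ‖stft g f lam‖ ^ 2) (∫ t : ℝ, ‖f t‖ ^ 2) := by
      rw [← (Equiv.ofInjective F F_inj).hasSum_iff]
      exact h
    refine ⟨h'.summable, ?_, ?_⟩
    · rw [h'.tsum_eq, one_mul]
    · rw [h'.tsum_eq, one_mul]

end Pool.Agent.Results.MP_41f43f_an.OddFeichtingerFrame
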